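import Pool.Agent.Results.MP_6bdaeb_co.Superlinear

set_option autoImplicit false

namespace Pool.Agent.Results.MP_6bdaeb_co.NoUniformConstant

open Pool.Agent.Results.MP_6bdaeb_co.Superlinear

theorem deg_eq {V W : Type} {G : SimpleGraph V} {v : V} {H : SimpleGraph W} {w : W} {r : ℕ}
    (hr : 1 ≤ r) {f : V → W} (h : BM G v H w r f) :
    (H.neighborSet w).ncard = (G.neighborSet v).ncard := by
  have h0 : G.dist v v ≤ r := root_mem G v r
  have h1 : ∀ x, G.Adj v x → G.dist v x ≤ r := fun x hx => by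
    rw [SimpleGraph.dist_eq_one_iff_adj.2 hx]; exact hr
  have h2 : H.neighborSet w = f '' G.neighborSet v := by
    ext y
    constructor
    · intro hy
      have hy' : H.Adj w y := hy
      obtain ⟨x, hx, rfl⟩ := h.surj y (by rw [SimpleGraph.dist_eq_one_iff_adj.2 hy']; exact hr)
      refine ⟨x, (h.adj v x h0 hx).2 ?_, rfl⟩
      rw [h.root]; exact hy'
    · rintro ⟨x, hx, rfl⟩
      have := (h.adj v x h0 (h1 x hx)).1 hx
      rw [h.root] at this
      exact this
  rw [h2]
  exact Set.ncard_image_of_injOn (fun x hx y hy hxy => h.inj x y (h1 x hx) (h1 y hy) hxy)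

/-- There is a degree `d` such that for every `c` there are a finite connected `d`-regular
vertex-transitive graph `H` and `r ≥ 1` such that every finite connected vertex-transitive graph with
the same `r`-ball as `H` has diameter greater than `c r`. -/
theorem result : ∃ d : ℕ, ∀ c : ℝ, ∃ (W : Type) (_ : Finite W) (H : SimpleGraph W),
    H.Connected ∧ VertexTransitive H ∧ (∀ w : W, (H.neighborSet w).ncard = d) ∧
    ∃ r : ℕ, 1 ≤ r ∧ ∀ (W' : Type) (_ : Finite W') (H' : SimpleGraph W'),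
      H'.Connected → VertexTransitive H' → (∃ (w : W) (w' : W'), SameBall H w H' w' r) →
        c * r < (H'.diam : ℝ) := by
  obtain ⟨V, G, hV, -, -, hGt, hfin, hbig⟩ := Superlinear.result
  obtain ⟨v0⟩ : Nonempty V := inferInstance
  refine ⟨(G.neighborSet v0).ncard, fun c => ?_⟩
  obtain ⟨c', hc'⟩ := exists_nat_ge c
  obtain ⟨r, hr, hlt⟩ := hbig c'
  obtain ⟨_, ⟨W, hW, H, hH, hHt, hB, rfl⟩, -⟩ := sInf_lt_iff.1 (hfin r hr)
  refine ⟨W, hW, H, hH, hHt, fun w => ?_, r, hr, ?_⟩
  · obtain ⟨f, hf⟩ := (hB v0 w).exists_map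
    exact deg_eq hr hf
  · rintro W' hW' H' hH' hH't ⟨w, w', ψ, hψ⟩
    have h1 : ∀ (v : V) (x : W'), SameBall G v H' x r := by
      intro v x
      obtain ⟨φ, hφ⟩ := hB v w
      have h2 : SameBall G v H' w' r := ⟨φ.trans ψ, by rw [RelIso.trans_apply, hφ, hψ]⟩
      obtain ⟨f, hf⟩ := h2.exists_map
      obtain ⟨θ, hθ⟩ := hH't w' x
      have h3 := hf.transport (RelIso.refl _) θ
      rw [hθ] at h3
      exact h3.sameBall
    have h4 : D G r ≤ (H'.diam : ℕ∞) := sInf_le ⟨W', hW', H', hH', hH't, h1, rfl⟩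
    have h5 : c' * r < H'.diam := by exact_mod_cast hlt.trans_le h4
    have h6 : ((c' * r : ℕ) : ℝ) < H'.diam := by exact_mod_cast h5
    push_cast at h6
    have h7 : (0 : ℝ) ≤ r := Nat.cast_nonneg r
    nlinarith

end Pool.Agent.Results.MP_6bdaeb_co.NoUniformConstant
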